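import Pool.Agent.Lib.H63RA.Family

/-!
# Residual amenability of the one-relator groups of Baumslag-Gersten type
-/

set_option autoImplicit false

namespace Pool.Agent.Results.MP_ae91d5_al.BaumslagGersten

open FreeGroup Pool.Agent.H63RA

/-- The smallest class of relators in the free group on `x₀, x₁` which contains the
Baumslag-Solitar relators and all relators `w` for which the group of `w` is not cyclic and
strongly residually amenable, and which is closed under all automorphisms of the free group and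
under the substitutions `x₁ ↦ x₁ x₀^l x₁⁻¹` and `x₁ ↦ x₁^l`, for all `l ≠ 0`. -/
inductive Rel : FreeGroup (Fin 2) → Prop
  | base (w : FreeGroup (Fin 2)) (h : SRA (PresentedGroup ({w} : Set (FreeGroup (Fin 2)))))
      (hc : ¬ IsCyclic (PresentedGroup ({w} : Set (FreeGroup (Fin 2))))) : Rel w
  | bs (m n : ℤ) (hm : m ≠ 0) (hn : n ≠ 0) : Rel (of 1 * of 0 ^ m * (of 1)⁻¹ * (of 0 ^ n)⁻¹)
  | aut (θ : FreeGroup (Fin 2) ≃* FreeGroup (Fin 2)) (w : FreeGroup (Fin 2)) (hw : Rel w) :
      Rel (θ w)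
  | conj (l : ℤ) (hl : l ≠ 0) (w : FreeGroup (Fin 2)) (hw : Rel w) :
      Rel (lift ![of 0, of 1 * of 0 ^ l * (of 1)⁻¹] w)
  | pow (l : ℤ) (hl : l ≠ 0) (w : FreeGroup (Fin 2)) (hw : Rel w) : Rel (lift ![of 0, of 1 ^ l] w)

theorem conj_eq (l : ℤ) (w : FreeGroup (Fin 2)) :
    lift ![of 0, of 1 * of 0 ^ l * (of 1)⁻¹] w = subst 1 (of 0 ^ l) w := by
  have : (lift ![of 0, of 1 * of 0 ^ l * (of 1)⁻¹] : FreeGroup (Fin 2) →* FreeGroup (Fin 2)) =
      subst 1 (of 0 ^ l) := by
    ext i
    fin_cases i <;> simp [subst]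
  rw [this]

theorem pow_eq (l : ℤ) (w : FreeGroup (Fin 2)) :
    lift ![of 0, of 1 ^ l] w = powSubst 1 l w := by
  have : (lift ![of 0, of 1 ^ l] : FreeGroup (Fin 2) →* FreeGroup (Fin 2)) = powSubst 1 l := by
    ext i
    fin_cases i <;> simp [powSubst]
  rw [this]

theorem sra_of_rel {w : FreeGroup (Fin 2)} (hw : Rel w) :
    SRA (PresentedGroup ({w} : Set (FreeGroup (Fin 2)))) ∧
      ¬ IsCyclic (PresentedGroup ({w} : Set (FreeGroup (Fin 2)))) := by
  induction hw with
  | base w h hc => exact ⟨h, hc⟩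
  | bs m n hm hn => exact sra_bs m n hm hn
  | aut θ w _ ih => exact closed_aut θ w ih
  | conj l hl w _ ih => rw [conj_eq]; exact closed_conj l hl w ih
  | pow l hl w _ ih => rw [pow_eq]; exact closed_pow l hl w ih

/-- Every relator `w` of the class `Rel` defines a strongly residually amenable group (every
non-trivial element has an image of infinite order in an amenable group); in particular this holds
for `⟨a, t | s a^m s⁻¹ = a^n⟩`, `s = t^k a^l t^{-k}`, for all non-zero `k, l, m, n`, since their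
relators are in the class. -/
theorem result :
    (∀ w : FreeGroup (Fin 2), Rel w → SRA (PresentedGroup ({w} : Set (FreeGroup (Fin 2))))) ∧
    ∀ k l m n : ℤ, k ≠ 0 → l ≠ 0 → m ≠ 0 → n ≠ 0 →
      Rel ((of 1 ^ k * of 0 ^ l * (of 1 ^ k)⁻¹) * of 0 ^ m *
        (of 1 ^ k * of 0 ^ l * (of 1 ^ k)⁻¹)⁻¹ * (of 0 ^ n)⁻¹) := by
  refine ⟨fun w hw => (sra_of_rel hw).1, fun k l m n hk hl hm hn => ?_⟩
  have h := Rel.pow k hk _ (Rel.conj l hl _ (Rel.bs m n hm hn))
  convert h using 1
  simp [_root_.map_zpow]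

end Pool.Agent.Results.MP_ae91d5_al.BaumslagGersten
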