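import Pool.Agent.Lib.H63RA.Pres

/-!
# A combination theorem for one-relator groups with any number of generators
-/

set_option autoImplicit false

namespace Pool.Agent.Results.MP_ae91d5_al.ConjugateLetters

open Pool.Agent.H63RA

/-- Let `H = ⟨x_1, …, x_n | w⟩` be strongly residually amenable (every non-trivial element has an
image of infinite order in an amenable group). Let `u` be a word in the letters other than `x_j`,
such that `u` and `x_j` are non-trivial in `H` and one of them has infinite order in the
abelianisation of `H`. Then the one-relator group obtained from the relator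
`w(x_j := x_j u x_j⁻¹)` is strongly residually amenable, and it contains `H`. -/
theorem result (n : ℕ) (j : Fin n) (w u : FreeGroup (Fin n))
    (hu : u ∈ Subgroup.closure (FreeGroup.of '' {i : Fin n | i ≠ j}))
    (hw : SRA (PresentedGroup ({w} : Set (FreeGroup (Fin n)))))
    (hj : (PresentedGroup.of j : PresentedGroup ({w} : Set (FreeGroup (Fin n)))) ≠ 1)
    (hu1 : PresentedGroup.mk ({w} : Set (FreeGroup (Fin n))) u ≠ 1)
    (hd : ∃ d : PresentedGroup ({w} : Set (FreeGroup (Fin n))) →* Multiplicative ℤ,
      d (PresentedGroup.of j) ≠ 1 ∨ d (PresentedGroup.mk _ u) ≠ 1) :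
    SRA (PresentedGroup ({FreeGroup.lift (fun i => if i = j then
        FreeGroup.of j * u * (FreeGroup.of j)⁻¹ else FreeGroup.of i) w} :
          Set (FreeGroup (Fin n)))) ∧
    ∃ e : PresentedGroup ({w} : Set (FreeGroup (Fin n))) →*
      PresentedGroup ({FreeGroup.lift (fun i => if i = j then
        FreeGroup.of j * u * (FreeGroup.of j)⁻¹ else FreeGroup.of i) w} :
          Set (FreeGroup (Fin n))), Function.Injective e := by
  obtain ⟨d, hd⟩ := hd
  exact sra_subst j w u hu hw hj hu1 d hd

end Pool.Agent.Results.MP_ae91d5_al.ConjugateLetters
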