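import Pool.Agent.Lib.H47U.C15

/-!
# One quotient suffices for residual amenability (MP_ae91d5_al)

`G = OR r = ⟨x_1, …, x_n, t | kap r⟩`, where the letter `(x, i)` of the word `r` stands for `t⁻ⁱ x tⁱ`.
Every one-relator group whose relator has exponent sum `0` in the generator `t` has this form.

Let `φ : G → Q` be a homomorphism to a group with unique products (e.g. a torsion-free elementary
amenable group of the usual kind). If `r` is built cyclically from its top letters (see below) and the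
Fox derivatives of `r` with respect to a top letter and with respect to a bottom letter do not vanish in
`ℚ[Q]`, then every non-trivial element of `G` survives in a homomorphism, over `φ`, to a group with
unique products which is solvable-by-`Q`.
-/

set_option autoImplicit false

namespace Pool.Agent.Results.MP_ae91d5_al.OneQuotient

open Pool.Agent.H47U
open Pool.Agent.H63RA (Amen)
open FreeGroup (of)

/-- Every non-trivial element of `OR r` survives in a group `T` with unique products over `φ` such that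
`T → Q` has solvable kernel; `T` is amenable if `Q` is. -/
def Conclusion {β Q : Type} [Group Q] {r : FreeGroup (β × ℤ)} (φ : OR r →* Q) : Prop :=
  ∀ γ : OR r, γ ≠ 1 → ∃ (T : Type) (_ : Group T) (f : OR r →* T) (p : T →* Q),
    UniqueProds T ∧ Group.IsSolvable p.ker ∧ (Amen Q → Amen T) ∧ p.comp f = φ ∧ f γ ≠ 1

theorem conclusion_of_RS {β Q : Type} [Group Q] {r : FreeGroup (β × ℤ)} {φ : OR r →* Q}
    (h : RS φ) : Conclusion φ := by
  intro γ hγ
  obtain ⟨T, iT, f, p, hT, hp, hpf, hfg⟩ := h γ hγ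
  exact ⟨T, iT, f, p, hT, hp, fun hQ => amen_of_ker p hp hQ, hpf, hfg⟩

/-- **One quotient suffices.** `X` is a set of generators, `k` gives their levels, `A` is a word in the
top letters `(x, k x)`, `x ∈ X`, and `u`, `g`, `h` are words without letters `(x, i)`, `x ∈ X`, `i ≥ k x`.
`(x', l)` is a bottom letter: no letter `(x', i)`, `i < l`, occurs.
(i) the relator `A u⁻¹`; (ii) the relator `A⁻¹ g A h⁻¹`; (iii) the relator `A u⁻¹`, trivial `Q`. -/
theorem result (n : ℕ) (X : Set (Fin n)) (k : Fin n → ℤ) (A u g h : FreeGroup (Fin n × ℤ))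
    (x x' : Fin n) (l : ℤ) (hx : x ∈ X)
    (hA : A ∈ Av {p : Fin n × ℤ | p.1 ∈ X ∧ p.2 = k p.1}ᶜ)
    (hu : u ∈ Av {p : Fin n × ℤ | p.1 ∈ X ∧ k p.1 ≤ p.2})
    (hg : g ∈ Av {p : Fin n × ℤ | p.1 ∈ X ∧ k p.1 ≤ p.2})
    (hh : h ∈ Av {p : Fin n × ℤ | p.1 ∈ X ∧ k p.1 ≤ p.2})
    (hA' : A ∈ Av {p : Fin n × ℤ | p.1 = x' ∧ p.2 < l})
    (hu' : u ∈ Av {p : Fin n × ℤ | p.1 = x' ∧ p.2 < l})
    (hg' : g ∈ Av {p : Fin n × ℤ | p.1 = x' ∧ p.2 < l})
    (hh' : h ∈ Av {p : Fin n × ℤ | p.1 = x' ∧ p.2 < l}) :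
    (u ≠ 1 → ∀ (Q : Type) [Group Q] (φ : OR (A * u⁻¹) →* Q), UniqueProds Q →
      fox (bar φ) (x, k x) (A * u⁻¹) ≠ 0 → fox (bar φ) (x', l) (A * u⁻¹) ≠ 0 → Conclusion φ) ∧
    (∀ (Q : Type) [Group Q] (φ : OR (A⁻¹ * g * A * h⁻¹) →* Q), UniqueProds Q →
      (A = of (x, k x) ∨ φ (PresentedGroup.mk _ (kap A)) ≠ 1) →
      fox (bar φ) (x, k x) (A⁻¹ * g * A * h⁻¹) ≠ 0 →
      fox (bar φ) (x', l) (A⁻¹ * g * A * h⁻¹) ≠ 0 → Conclusion φ) ∧
    (u ≠ 1 → expo (x, k x) (A * u⁻¹) ≠ 1 → expo (x', l) (A * u⁻¹) ≠ 1 →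
      ∀ γ : OR (A * u⁻¹), γ ≠ 1 → ∃ (T : Type) (_ : Group T) (f : OR (A * u⁻¹) →* T),
        UniqueProds T ∧ Group.IsSolvable T ∧ Amen T ∧ f γ ≠ 1) := by
  refine ⟨?_, ?_, ?_⟩
  · intro hu1 Q _ φ hQ hf hf'
    exact conclusion_of_RS (rs_amalg hQ hA hu hu1 hx hA' hu' φ hf hf')
  · intro Q _ φ hQ hA1 hf hf'
    refine conclusion_of_RS (rs_conj hQ hA hg hh hx
      (mul_mem (mul_mem (mul_mem (inv_mem hA') hg') hA') (inv_mem hh')) φ ?_ hf hf')
    rw [lift_bar]
    exact hA1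
  · intro hu1 h1 h2 γ hγ
    have hQ : UniqueProds Unit := ⟨fun {A B} hA hB => by
      obtain ⟨a, ha⟩ := hA
      obtain ⟨b, hb⟩ := hB
      exact ⟨a, ha, b, hb, fun _ _ _ _ _ => ⟨rfl, rfl⟩⟩⟩
    obtain ⟨T, iT, f, p, hT, hp, -, hfg⟩ := rs_amalg hQ hA hu hu1 hx hA' hu'
      (1 : OR (A * u⁻¹) →* Unit) (fox_ne_zero_of_expo _ h1) (fox_ne_zero_of_expo _ h2) γ hγ
    have hsol : Group.IsSolvable T := by
      let a : T →* p.ker := (MonoidHom.id T).codRestrict p.ker (fun t => rfl)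
      refine Group.isSolvable_of_isSolvable_injective (f := a) ?_
      intro s t hst
      exact congrArg Subtype.val hst
    exact ⟨T, iT, f, hT, hsol, amen_of_solvable hsol, hfg⟩

end Pool.Agent.Results.MP_ae91d5_al.OneQuotient
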