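import Pool.Agent.Lib.H47U.E09

/-!
# Two-sided one-relator groups are residually amenable (MP_ae91d5_al)

Generators `x_1, …, x_N` and `t`; the letter `(x, i)` stands for `t⁻ⁱ x tⁱ`, and `a_i = (a, i)` for one
distinguished generator `a`. We treat the relators `A⁻¹ g A h⁻¹`, where `A` is a word in the top letters
and `g`, `h` are words in lower letters which die when `a_0` is killed; among them the relators
`c⁻¹ a^m c a^(-m')`, `c = κ₁ a_nᵉ κ₂`, in particular relators of Baumslag–Miller–Troeger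
(`c = w⁻¹ a w`, `w = tⁿ κ`, `κ₁ = κ⁻¹`, `κ₂ = κ`, `e = m = 1`, `m' = 2`). Under a condition on a lowest
letter, the group is residually (amenable with unique products).
-/

set_option autoImplicit false

namespace Pool.Agent.Results.MP_ae91d5_al.TwoSided

open Pool.Agent.H47U
open Pool.Agent.H63RA (Amen)
open FreeGroup (of lift)

/-- Every non-trivial element of the one-relator group `OR r` survives in a homomorphism to an amenable
group with unique products. -/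
def ResiduallyAmenable {β : Type} (r : FreeGroup (β × ℤ)) : Prop :=
  ∀ γ : OR r, γ ≠ 1 → ∃ (T : Type) (_ : Group T) (f : OR r →* T), Amen T ∧ UniqueProds T ∧ f γ ≠ 1

/-- The relator `c⁻¹ a^m c a^(-m')` with `c = κ₁ a_nᵉ κ₂`, as a word in the letters `(x, i)`. -/
def tsRel {N : ℕ} (a : Fin N) (n e m m' : ℤ) (κ₁ κ₂ : FreeGroup (Fin N × ℤ)) :
    FreeGroup (Fin N × ℤ) :=
  (κ₁ * of (a, n) ^ e * κ₂)⁻¹ * of (a, 0) ^ m * (κ₁ * of (a, n) ^ e * κ₂) * (of (a, 0) ^ m')⁻¹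

theorem residuallyAmenable_of_RAU {β : Type} {r : FreeGroup (β × ℤ)} (h : RAU (OR r)) :
    ResiduallyAmenable r := by
  intro g hg
  obtain ⟨T, iT, f, hT, hfg⟩ := h g hg
  exact ⟨T, iT, f, hT.1, hT.2, hfg⟩

theorem rel_eq {N : ℕ} (a : Fin N) (n e m m' : ℤ) (κ₁ κ₂ : FreeGroup (Fin N × ℤ)) :
    rel a n e m m' κ₁ κ₂ = κ₂ * tsRel a n e m m' κ₁ κ₂ * κ₂⁻¹ := by
  simp only [rel, tsRel]
  group

theorem rau_tsRel {N : ℕ} {a : Fin N} {n e m m' : ℤ} {κ₁ κ₂ : FreeGroup (Fin N × ℤ)}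
    (h : RAU (OR (rel a n e m m' κ₁ κ₂))) : RAU (OR (tsRel a n e m m' κ₁ κ₂)) := by
  have h1 : ∀ s ∈ ({kap (tsRel a n e m m' κ₁ κ₂)} : Set (FreeGroup (Option (Fin N)))),
      lift (fun y => (PresentedGroup.of y : OR (rel a n e m m' κ₁ κ₂))) s = 1 := by
    intro s hs
    rw [Set.mem_singleton_iff] at hs
    subst hs
    have h2 : (lift (fun y => (PresentedGroup.of y : OR (rel a n e m m' κ₁ κ₂)))) =
        PresentedGroup.mk _ := by
      ext y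
      simp [PresentedGroup.of]
    rw [h2]
    have h3 : PresentedGroup.mk ({kap (rel a n e m m' κ₁ κ₂)} : Set (FreeGroup (Option (Fin N))))
        (kap (rel a n e m m' κ₁ κ₂)) = 1 := PresentedGroup.one_of_mem (Set.mem_singleton _)
    have h4 : kap (tsRel a n e m m' κ₁ κ₂) =
        (kap κ₂)⁻¹ * kap (rel a n e m m' κ₁ κ₂) * kap κ₂ := by
      rw [rel_eq, map_mul, map_mul, map_inv]
      group
    rw [h4, map_mul, map_mul, map_inv, h3, mul_one, inv_mul_cancel]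
  refine h.of_injective (PresentedGroup.toGroup h1) ?_
  rw [injective_iff_map_eq_one]
  intro g hg
  obtain ⟨z, rfl⟩ := PresentedGroup.mk_surjective _ g
  have h2 : (lift (fun y => (PresentedGroup.of y : OR (rel a n e m m' κ₁ κ₂)))) =
      PresentedGroup.mk _ := by
    ext y
    simp [PresentedGroup.of]
  have h3 : PresentedGroup.mk ({kap (rel a n e m m' κ₁ κ₂)} : Set (FreeGroup (Option (Fin N)))) z
      = 1 := by
    rw [← h2]
    exact hg
  rw [PresentedGroup.mk_eq_one_iff] at h3 ⊢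
  refine (Subgroup.normalClosure_le_normal (N := Subgroup.normalClosure
    {kap (tsRel a n e m m' κ₁ κ₂)}) ?_) h3
  intro s hs
  rw [Set.mem_singleton_iff] at hs
  subst hs
  rw [rel_eq, map_mul, map_mul, map_inv]
  exact Subgroup.normalClosure_normal.conj_mem _
    (Subgroup.subset_normalClosure (Set.mem_singleton _)) _

/-- **Two-sided one-relator groups.** `a` is a generator, `n ≥ 1`, `(y, l)` is a letter.
(i) `A` is a word in the top letters `(x, k x)`, `x ∈ X`, with `a ∈ X`, `k a = n`; `g`, `h` are words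
without letters `(x, i)`, `x ∈ X`, `i ≥ k x`, and without `(a, i)`, `i ≤ -n`, in the normal closure of
`(a, 0)`; `(a, n)` has non-zero exponent sum in `A` and `(a, 0)` in `g` and in `h`; `(y, l)` is lowest
for `y`; the Fox derivative of `g` or of `h` with respect to `(y, l)`, with the letters `(a, i)`, `i < 0`,
killed, is not zero. (ii) The relator `c⁻¹ a^m c a^(-m')`, `c = κ₁ a_nᵉ κ₂`. -/
theorem result (N : ℕ) (a : Fin N) (n : ℕ) (hn : 0 < n) (y : Fin N) (l : ℤ) :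
    (∀ (X : Set (Fin N)) (k : Fin N → ℤ) (A g h : FreeGroup (Fin N × ℤ)), a ∈ X → k a = n →
      A ∈ Av {p : Fin N × ℤ | p.1 ∈ X ∧ p.2 = k p.1}ᶜ →
      g ∈ Av {p : Fin N × ℤ | (p.1 ∈ X ∧ k p.1 ≤ p.2) ∨ (p.1 = a ∧ p.2 ≤ -n)} →
      h ∈ Av {p : Fin N × ℤ | (p.1 ∈ X ∧ k p.1 ≤ p.2) ∨ (p.1 = a ∧ p.2 ≤ -n)} →
      g ∈ Subgroup.normalClosure {of (a, (0 : ℤ))} → h ∈ Subgroup.normalClosure {of (a, (0 : ℤ))} →
      expo (a, (n : ℤ)) A ≠ 1 → expo (a, (0 : ℤ)) g ≠ 1 → expo (a, (0 : ℤ)) h ≠ 1 →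
      A ∈ Av {p : Fin N × ℤ | p.1 = y ∧ p.2 ≤ l} →
      g ∈ Av {p : Fin N × ℤ | p.1 = y ∧ p.2 < l} → h ∈ Av {p : Fin N × ℤ | p.1 = y ∧ p.2 < l} →
      (fox (fun p => kneg a (of p)) (y, l) g ≠ 0 ∨ fox (fun p => kneg a (of p)) (y, l) h ≠ 0) →
      ResiduallyAmenable (A⁻¹ * g * A * h⁻¹)) ∧
    (∀ (e m m' : ℤ) (κ₁ κ₂ : FreeGroup (Fin N × ℤ)), e ≠ 0 → m ≠ 0 → m' ≠ 0 →
      κ₁ ∈ Av {p : Fin N × ℤ | p.1 = a ∧ (n : ℤ) ≤ |p.2|} →
      κ₂ ∈ Av {p : Fin N × ℤ | p.1 = a ∧ (n : ℤ) ≤ |p.2|} →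
      κ₁ ∈ Av {p : Fin N × ℤ | p.1 = y ∧ p.2 < l} → κ₂ ∈ Av {p : Fin N × ℤ | p.1 = y ∧ p.2 < l} →
      (y = a → l ≤ 0) →
      ((y = a ∧ l = 0) ∨ fox (fun p => kneg a (of p)) (y, l) κ₁ ≠ 0 ∨
        fox (fun p => kneg a (of p)) (y, l) κ₂ ≠ 0) →
      ResiduallyAmenable (tsRel a n e m m' κ₁ κ₂)) := by
  constructor
  · intro X k A g h ha hk hA hg hh hg0 hh0 he hm hm' hA' hg' hh' hD
    have h1 : ∀ {u : FreeGroup (Fin N × ℤ)},
        u ∈ Av {p : Fin N × ℤ | (p.1 ∈ X ∧ k p.1 ≤ p.2) ∨ (p.1 = a ∧ p.2 ≤ -n)} →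
        u ∈ Av {p : Fin N × ℤ | p.1 ∈ X ∧ k p.1 ≤ p.2} := fun hu =>
      Av_anti (fun p hp => Or.inl hp) hu
    have h2 : ∀ {u : FreeGroup (Fin N × ℤ)},
        u ∈ Av {p : Fin N × ℤ | (p.1 ∈ X ∧ k p.1 ≤ p.2) ∨ (p.1 = a ∧ p.2 ≤ -n)} →
        u ∈ Av {p : Fin N × ℤ | p.1 = a ∧ (n : ℤ) ≤ |p.2|} := by
      intro u hu
      refine Av_anti ?_ hu
      rintro ⟨p, i⟩ ⟨hp, hi⟩
      simp only at hp hi
      subst hp
      rcases le_abs.1 hi with h | h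
      · exact Or.inl ⟨ha, by simp only [hk]; exact h⟩
      · exact Or.inr ⟨rfl, by simp only; omega⟩
    exact residuallyAmenable_of_RAU (two_sided_gen
      ⟨hn, ha, hk, hA, h1 hg, h1 hh, h2 hg, h2 hh, hg0, hh0, he, hm, hm'⟩ hA' hg' hh' hD)
  · intro e m m' κ₁ κ₂ he hm hm' h₁ h₂ h₁' h₂' hl hD
    exact residuallyAmenable_of_RAU (rau_tsRel (two_sided_std a n hn e m m' he hm hm' h₁ h₂ h₁' h₂' hl
      (hD.imp (fun h => by rw [h.1, h.2]) id)))

end Pool.Agent.Results.MP_ae91d5_al.TwoSided
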